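import Pool.Agent.Helper89.GP.GoalsC

/-!
# One pair: all the inequalities of `RW`
-/

namespace Pool.Agent.Helper22.GP

open Finset Pool.Agent.Helper89.GP

theorem par (hadj : AdjStmt) (hnna : NnaStmt) (hpos : PosStmt) (hexb : ExbStmt) (hbtw : BtwStmt)
    (hbth : BthStmt) (hhlf : HlfStmt) (hdcb : DcbStmt) (hrwj : RwjStmt) (hrw5 : Rw5Stmt)
    (hrw4 : Rw4Stmt) : ParStmt := by
  intro n R u v hI
  have hne : u ≠ v := hI.ne
  have hn : (LX R).Nonempty := hI.nonempty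
  have hc := hadj n R u v hI
  have hc0 := hpos n R u v hI
  have hcA : bq R u v 0 ≤ An R u v := by
    rw [hc]
    unfold bq An
    apply Pr_mono
    intro σ _ h
    omega
  have hA0 : 0 < An R u v := lt_of_lt_of_le hc0 hcA
  have hN := hnna n R u v hn hne
  rw [← hc] at hN
  obtain ⟨hs, hp, hg, -, hz, hN0⟩ := hdcb n R u v hn hne
  have hb0 : ∀ k, 0 ≤ bq R u v k := fun k => Pr_nonneg _
  have hb1 := hbtw n R u v hI hc
  have hb2 := hbth n R u v hn hne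
  have hb3 := (hhlf n R u v hI).2.2
  rw [hp] at hb3
  have hF : ∀ t : ℝ, 0 ≤ t → ∑ k ∈ range n, bq R u v k * t ^ k / (k.factorial : ℝ) ≤
      bq R u v 0 * Real.exp ((1 + bq R u v 0 / An R u v) * t) :=
    fun t ht => hexb n R u v t hI hc ht
  obtain ⟨h4, h3, hh⟩ := hrw4 n (bq R u v) (An R u v) (bq R u v 0) (Nn R u v) hb0 hz hc0 hA0 rfl
    hb1 hb2 hb3 hs hN
  have h5 := hrw5 n (bq R u v) (An R u v) (bq R u v 0) (Nn R u v) hb0 hz hc0 hA0 rfl
    hb1 hs hN hF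
  rw [← hg] at h4 h3 hh h5
  refine ⟨hc0, hcA, hN0, hN, hh, h3, h4, h5, ?_⟩
  intro τ hτ
  have hJ := hrwj n (bq R u v) (An R u v) (bq R u v 0) (Nn R u v) τ hb0 hc0 hA0 hτ hs hN hF
  rw [← hg] at hJ
  exact hJ

end Pool.Agent.Helper22.GP
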